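import Pool.Agent.NH2.CN.Orb

/-!
# Orbifold entire curves in complements of general forms: the limit argument
-/

set_option autoImplicit false

namespace Pool.Agent.NH2.CN

open MvPolynomial Filter Topology Pool.Agent.NH29.GN Pool.Agent.TH143.EL

lemma ent_mero {f : ℂ → ℂ} (hf : Differentiable ℂ f) : Meromorphic f :=
  fun z => (hf.analyticAt z).meromorphicAt

/-- entire functions which agree off a discrete set are equal -/
lemma ent_eq {f g : ℂ → ℂ} (hf : Differentiable ℂ f) (hg : Differentiable ℂ g)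
    (h : ∀ᶠ z in codiscrete ℂ, f z = g z) (z : ℂ) : f z = g z := by
  have h1 : ∀ᶠ w in 𝓝[≠] z, f w = g w := codis_ev h z
  have h2 : Tendsto f (𝓝[≠] z) (𝓝 (f z)) := (hf.continuous.tendsto z).mono_left nhdsWithin_le_nhds
  have h3 : Tendsto g (𝓝[≠] z) (𝓝 (g z)) := (hg.continuous.tendsto z).mono_left nhdsWithin_le_nhds
  exact tendsto_nhds_unique (h2.congr' h1) h3

section

variable {M q : ℕ} {d : Fin q → ℕ}

/-- the classes of entire functions -/
noncomputable def ec (f : Fin (M + 1) → ℂ → ℂ) (hf : ∀ a, Differentiable ℂ (f a)) :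
    Fin (M + 1) → MK := fun a => cl (f a) (ent_mero (hf a))

/-- the entire functions as elements of the ring -/
noncomputable def em (f : Fin (M + 1) → ℂ → ℂ) (hf : ∀ a, Differentiable ℂ (f a)) :
    Fin (M + 1) → MerS := fun a => ⟨f a, ent_mero (hf a)⟩

lemma ec_eq (f : Fin (M + 1) → ℂ → ℂ) (hf : ∀ a, Differentiable ℂ (f a)) (a : Fin (M + 1)) :
    ec f hf a = algebraMap MerS MK (em f hf a) := rfl

lemma em_prod (f : Fin (M + 1) → ℂ → ℂ) (hf : ∀ a, Differentiable ℂ (f a))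
    (β : Fin (M + 1) →₀ ℕ) (z : ℂ) :
    (∏ i, em f hf i ^ β i : MerS).1 z = ∏ i, f i z ^ β i := by
  have h1 : (∏ i, em f hf i ^ β i : MerS).1 = ∏ i, (em f hf i ^ β i : MerS).1 :=
    map_prod MerS.val (fun i => em f hf i ^ β i) Finset.univ
  rw [h1, Finset.prod_apply]
  refine Finset.prod_congr rfl fun i _ => ?_
  have h2 : (em f hf i ^ β i : MerS).1 = (em f hf i).1 ^ β i := map_pow MerS.val _ _
  rw [h2]
  rfl

lemma em_sum {ι : Type} [Fintype ι] (c : ι → ℂ) (u : ι → MerS) (z : ℂ) :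
    (∑ i, algebraMap ℂ MerS (c i) * u i : MerS).1 z = ∑ i, c i * (u i).1 z := by
  have h1 : (∑ i, algebraMap ℂ MerS (c i) * u i : MerS).1 =
      ∑ i, (algebraMap ℂ MerS (c i) * u i : MerS).1 :=
    map_sum MerS.val (fun i => algebraMap ℂ MerS (c i) * u i) Finset.univ
  rw [h1, Finset.sum_apply]
  rfl

/-- the value of a form at the classes -/
lemma fv_ec (t : Idx M d → ℂ) (f : Fin (M + 1) → ℂ → ℂ) (hf : ∀ a, Differentiable ℂ (f a))
    (b : Fin q) {h : ℂ → ℂ} (hh : Meromorphic h)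
    (he : ∀ z, fv (K := ℂ) (L := ℂ) t (fun a => f a z) b = h z) :
    fv (K := ℂ) (L := MK) t (ec f hf) b = cl h hh := by
  have h1 : fv (K := ℂ) (L := MK) t (ec f hf) b = algebraMap MerS MK
      (∑ β : Mon M (d b), algebraMap ℂ MerS (t ⟨b, β⟩) * ∏ i, em f hf i ^ β.1 i) := by
    unfold fv val
    rw [map_sum]
    refine Finset.sum_congr rfl fun β _ => ?_
    rw [map_mul, map_prod]
    congr 1
  rw [h1]
  have h2 : (∑ β : Mon M (d b), algebraMap ℂ MerS (t ⟨b, β⟩) * ∏ i, em f hf i ^ β.1 i) =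
      (⟨h, hh⟩ : MerS) := by
    apply Subtype.ext
    funext z
    rw [em_sum (fun β : Mon M (d b) => t ⟨b, β⟩) (fun β => ∏ i, em f hf i ^ β.1 i) z]
    show _ = h z
    rw [← he z]
    unfold fv val
    refine Finset.sum_congr rfl fun β _ => ?_
    rw [em_prod]
    rfl
  rw [h2]
  rfl

/-- the value of a polynomial at the classes -/
lemma aeval_ec (f : Fin (M + 1) → ℂ → ℂ) (hf : ∀ a, Differentiable ℂ (f a))
    (H : MvPolynomial (Fin (M + 1)) ℂ) (h0 : ∀ z, eval (fun a => f a z) H = 0) :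
    aeval (ec f hf) H = 0 := by
  have h1 : aeval (ec f hf) H = algebraMap MerS MK (aeval (em f hf) H) := by
    rw [← aeval_algebraMap_apply]
    rfl
  rw [h1]
  have h2 : aeval (em f hf) H = (0 : MerS) := by
    apply Subtype.ext
    funext z
    show (aeval (em f hf) H : MerS).1 z = 0
    rw [← h0 z]
    have h3 : ((Pi.evalAlgHom ℂ (fun _ : ℂ => ℂ) z).comp MerS.val) (aeval (em f hf) H) =
        aeval (fun a => ((Pi.evalAlgHom ℂ (fun _ : ℂ => ℂ) z).comp MerS.val) (em f hf a)) H := by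
      rw [← comp_aeval_apply]
    have h4 : (aeval (fun a => f a z) H : ℂ) = eval (fun a => f a z) H := by
      rw [aeval_def]
      rfl
    rw [← h4]
    exact h3
  rw [h2, map_zero]

/-- a nonconstant entire curve in `V ∩ {F_c = 0, c ∈ C}` with multiplicities divisible by `m` over
`F_b = 0`, `b ∉ C` -/
structure Cv (V : Set (MvPolynomial (Fin (M + 1)) ℂ)) (C : Finset (Fin q)) (t : Idx M d → ℂ)
    (m : ℕ) (f : Fin (M + 1) → ℂ → ℂ) : Prop where
  ent : ∀ a, Differentiable ℂ (f a)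
  nz : ∃ a z, f a z ≠ 0
  onV : ∀ H ∈ V, ∀ z, eval (fun a => f a z) H = 0
  onC : ∀ c ∈ C, ∀ z, fv (K := ℂ) (L := ℂ) t (fun a => f a z) c = 0
  off : ∀ b, b ∉ C → ∃ g : ℂ → ℂ, Differentiable ℂ g ∧ (∃ z, g z ≠ 0) ∧
    ∀ z, fv (K := ℂ) (L := ℂ) t (fun a => f a z) b = g z ^ m
  ncst : ¬ ∃ (c : ℂ → ℂ) (y : Fin (M + 1) → ℂ), ∀ a z, f a z = c z * y a

lemma cl_ent_ne {g : ℂ → ℂ} (hg : Differentiable ℂ g) (h : ∃ z, g z ≠ 0) :
    cl g (ent_mero hg) ≠ 0 := by
  intro h0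
  rw [cl_eq_zero] at h0
  obtain ⟨z, hz⟩ := h
  exact hz (ent_eq hg (differentiable_const 0) h0 z)

/-- constant ratios of the classes -/
lemma cst_of_ec (f : Fin (M + 1) → ℂ → ℂ) (hf : ∀ a, Differentiable ℂ (f a))
    (hnz : ∃ a z, f a z ≠ 0) (c : MK) (y : Fin (M + 1) → ℂ)
    (h : ∀ a, ec f hf a = c * algebraMap ℂ MK (y a)) :
    ∃ (c : ℂ → ℂ) (y : Fin (M + 1) → ℂ), ∀ a z, f a z = c z * y a := by
  obtain ⟨a₀, z₀, h0⟩ := hnz
  have h1 : ec f hf a₀ ≠ 0 := cl_ent_ne (hf a₀) ⟨z₀, h0⟩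
  have hy : y a₀ ≠ 0 := by
    intro h2
    rw [h a₀, h2, map_zero, mul_zero] at h1
    exact h1 rfl
  refine ⟨f a₀, fun a => y a / y a₀, fun a z => ?_⟩
  have h2 : ec f hf a = ec f hf a₀ * algebraMap ℂ MK (y a / y a₀) := by
    rw [h a, h a₀, mul_assoc, ← map_mul, mul_div_cancel₀ _ hy]
  have h3 : cl (f a) (ent_mero (hf a)) =
      cl (f a₀ * fun _ => y a / y a₀) ((ent_mero (hf a₀)).mul (Meromorphic.const _)) := by
    rw [← cl_mul (ent_mero (hf a₀)) (Meromorphic.const (y a / y a₀)), cl_const]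
    exact h2
  rw [cl_eq] at h3
  exact ent_eq (hf a) ((hf a₀).mul (differentiable_const _)) h3 z

lemma aeval_mkh {σ : Type} [Fintype σ] (T : σ → ℕ → ℂ) (Q : MvPolynomial σ ℂ) :
    aeval (fun i => mkh ℂ (T i)) Q = mkh ℂ (fun s => eval (fun i => T i s) Q) := by
  simp only [aeval_def, eval_eq', eval₂_eq']
  rw [mkh_sum]
  refine Finset.sum_congr rfl fun e _ => ?_
  rw [← mkh_const]
  have h1 : ∏ i, mkh ℂ (T i) ^ e i = mkh ℂ (fun s => ∏ i, T i s ^ e i) := by
    rw [mkh_prod]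
    refine Finset.prod_congr rfl fun i _ => ?_
    rw [← map_pow]
    rfl
  rw [h1, ← map_mul]
  rfl

/-- the limit of orbifold curves is a bad point -/
theorem bad_of_cv (V : Set (MvPolynomial (Fin (M + 1)) ℂ)) (C : Finset (Fin q)) (T : ℕ → Idx M d → ℂ) (m : ℕ → ℕ) (hm : ∀ s, s + 1 ≤ m s)
    (f : ℕ → Fin (M + 1) → ℂ → ℂ) (hf : ∀ s, Cv V C (T s) (m s) (f s)) :
    ∃ x : Fin (M + 1) → UP MK, Bad ℂ (UP ℂ) (UP MK) V C (fun i => mkh ℂ (fun s => T s i)) x := by
  classical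
  obtain ⟨F, hF⟩ : ∃ F : Fin (M + 1) → ℕ → MK, F = fun a s => ec (f s) (hf s).ent a := ⟨_, rfl⟩
  have hg1 : ∀ b s, ∃ g : MK, g ≠ 0 ∧ (b ∉ C →
      fv (K := ℂ) (L := MK) (T s) (ec (f s) (hf s).ent) b = g ^ m s) := by
    intro b s
    by_cases hb : b ∈ C
    · exact ⟨1, one_ne_zero, fun h => absurd hb h⟩
    · obtain ⟨g, hg, hg0, he⟩ := (hf s).off b hb
      refine ⟨cl g (ent_mero hg), cl_ent_ne hg hg0, fun _ => ?_⟩
      have h1 := fv_ec (T s) (f s) (hf s).ent b (h := g ^ m s) (ent_mero (hg.pow (m s))) he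
      rw [h1]
      exact map_pow (algebraMap MerS MK) ⟨g, ent_mero hg⟩ (m s)
  choose g hg0 hg using hg1
  have hfv : ∀ b, fv (K := UP ℂ) (L := UP MK) (fun i => mkh ℂ (fun s => T s i))
      (fun a => mkh MK (F a)) b = mkh MK (fun s => fv (K := ℂ) (L := MK) (T s)
        (ec (f s) (hf s).ent) b) := by
    intro b
    rw [fv_mkh, hF]
  have hfv0 : ∀ b, b ∉ C → fv (K := UP ℂ) (L := UP MK) (fun i => mkh ℂ (fun s => T s i))
      (fun a => mkh MK (F a)) b = mkh MK (fun s => g b s ^ m s) := by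
    intro b hb
    rw [hfv]
    congr 1
    funext s
    exact hg b s hb
  refine ⟨fun a => mkh MK (F a), ?_, ?_, ?_, ?_, ?_, ?_⟩
  · intro H hH
    rw [eval_mkh, mkh_zero, hF]
    exact Eventually.of_forall fun s => aeval_ec (f s) (hf s).ent H ((hf s).onV H hH)
  · intro c hc
    rw [hfv, mkh_zero]
    refine Eventually.of_forall fun s => ?_
    rw [fv_ec (T s) (f s) (hf s).ent c (h := fun _ => 0) (Meromorphic.const 0)
      ((hf s).onC c hc), cl_const, map_zero]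
  · intro b hb
    rw [hfv0 b hb, mkh_ne_zero]
    exact Eventually.of_forall fun s => pow_ne_zero _ (hg0 b s)
  · intro h0
    have h1 : ∀ a, ∀ᶠ s in hy, F a s = 0 := fun a => mkh_zero.1 (congrFun h0 a)
    have h2 : ∀ᶠ s in hy, ∀ a, F a s = 0 := eventually_all.2 h1
    obtain ⟨s, hs⟩ := h2.exists
    obtain ⟨a, ha⟩ := (hf s).nz
    have h3 := hs a
    rw [hF] at h3
    exact cl_ent_ne ((hf s).ent a) ha h3
  · intro c y h0
    choose y' hy' using fun a => mkh_surj (y a)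
    obtain ⟨c', rfl⟩ := mkh_surj c
    have h1 : ∀ a, ∀ᶠ s in hy, F a s = c' s * algebraMap ℂ MK (y' a s) := by
      intro a
      have h2 := congrFun h0 a
      rw [← hy' a, algUp_mkh, ← map_mul, mkh_eq] at h2
      exact h2
    have h2 : ∀ᶠ s in hy, ∀ a, F a s = c' s * algebraMap ℂ MK (y' a s) := eventually_all.2 h1
    obtain ⟨s, hs⟩ := h2.exists
    rw [hF] at hs
    exact (hf s).ncst (cst_of_ec (f s) (hf s).ent (hf s).nz (c' s) (fun a => y' a s) hs)
  · intro b₀ hb₀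
    refine ind_up (fun b s => if b ∈ C then 1 else g b s ^ d b₀ / g b₀ s ^ d b) m
      (fun s => (Nat.le_succ s).trans (hm s)) ?_ _ ?_
    · intro b s
      split_ifs
      · exact one_ne_zero
      · exact div_ne_zero (pow_ne_zero _ (hg0 b s)) (pow_ne_zero _ (hg0 b₀ s))
    · intro b
      unfold quo
      by_cases hb : b ∈ C
      · rw [if_pos hb]
        simp only [if_pos hb, one_pow]
        exact (map_one (mkh MK)).symm
      · rw [if_neg hb, hfv0 b hb, hfv0 b₀ hb₀]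
        simp only [if_neg hb]
        rw [← map_pow, ← map_pow, ← mkh_div]
        congr 1
        funext s
        show (g b s ^ m s) ^ d b₀ / (g b₀ s ^ m s) ^ d b = (g b s ^ d b₀ / g b₀ s ^ d b) ^ m s
        rw [div_pow, ← pow_mul, ← pow_mul, ← pow_mul, ← pow_mul, mul_comm (m s), mul_comm (m s)]

end

end Pool.Agent.NH2.CN
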