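import Pool.Agent.NH2.CN.Up
import Pool.Agent.Y221.AB.Ab2

/-!
# Orbifold entire curves and bad points over the ultrapower of the field of meromorphic functions
-/

set_option autoImplicit false

namespace Pool.Agent.NH2.CN

open MvPolynomial Filter Pool.Agent.NH29.GN Pool.Agent.TH143.EL

noncomputable instance algUp : Algebra (UP ℂ) (UP MK) := (upMap ℂ MK).toAlgebra

lemma algUp_mkh (f : ℕ → ℂ) :
    algebraMap (UP ℂ) (UP MK) (mkh ℂ f) = mkh MK (fun s => algebraMap ℂ MK (f s)) := rfl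

section

variable {M q : ℕ} {d : Fin q → ℕ}

lemma val_mkh (F : Fin (M + 1) → ℕ → MK) (β : Fin (M + 1) →₀ ℕ) :
    val (fun a => mkh MK (F a)) β = mkh MK (fun s => val (fun a => F a s) β) := by
  unfold val
  rw [mkh_prod]
  refine Finset.prod_congr rfl fun i _ => ?_
  rw [← map_pow]
  rfl

lemma fv_mkh (T : Idx M d → ℕ → ℂ) (F : Fin (M + 1) → ℕ → MK) (b : Fin q) :
    fv (K := UP ℂ) (L := UP MK) (fun i => mkh ℂ (T i)) (fun a => mkh MK (F a)) b =
      mkh MK (fun s => fv (K := ℂ) (L := MK) (fun i => T i s) (fun a => F a s) b) := by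
  unfold fv
  rw [mkh_sum]
  refine Finset.sum_congr rfl fun β _ => ?_
  rw [algUp_mkh, val_mkh, ← map_mul]
  rfl

lemma eval_mkh (F : Fin (M + 1) → ℕ → MK) (H : MvPolynomial (Fin (M + 1)) ℂ) :
    eval₂ ((algebraMap (UP ℂ) (UP MK)).comp (algebraMap ℂ (UP ℂ))) (fun a => mkh MK (F a)) H =
      mkh MK (fun s => aeval (fun a => F a s) H) := by
  rw [eval₂_eq']
  simp only [aeval_def, eval₂_eq']
  rw [mkh_sum]
  refine Finset.sum_congr rfl fun e _ => ?_
  rw [RingHom.comp_apply, ← mkh_const, algUp_mkh]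
  have h1 : ∏ i, mkh MK (F i) ^ e i = mkh MK (fun s => ∏ i, F i s ^ e i) := by
    rw [mkh_prod]
    refine Finset.prod_congr rfl fun i _ => ?_
    rw [← map_pow]
    rfl
  rw [h1, ← map_mul]
  rfl

end

/-- monomials in high powers of meromorphic functions -/
theorem ind_up {q : ℕ} (W : Fin q → ℕ → MK) (m : ℕ → ℕ) (hm : ∀ s, s ≤ m s)
    (hW : ∀ b s, W b s ≠ 0) (v : Fin q → UP MK)
    (hv : ∀ b, v b = mkh MK (fun s => W b s ^ m s)) : Ind (UP ℂ) v := by
  classical
  intro S c hsum hne e he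
  obtain ⟨U, hU⟩ : ∃ U : (Fin q → ℤ) → ℕ → MK, U = fun e s => ∏ b, W b s ^ e b := ⟨_, rfl⟩
  have hU0 : ∀ e s, U e s ≠ 0 := by
    intro e s
    rw [hU]
    exact Finset.prod_ne_zero_iff.2 fun b _ => zpow_ne_zero _ (hW b s)
  have hmon : ∀ e : Fin q → ℤ, ∏ b, v b ^ e b = mkh MK (fun s => U e s ^ m s) := by
    intro e
    have h1 : (fun s => U e s ^ m s) = fun s => ∏ b, (W b s ^ m s) ^ e b := by
      funext s
      rw [hU]
      show (∏ b, W b s ^ e b) ^ m s = _
      rw [← Finset.prod_pow]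
      refine Finset.prod_congr rfl fun b _ => ?_
      rw [← zpow_natCast, ← zpow_mul, ← zpow_natCast, ← zpow_mul, mul_comm]
    rw [h1, mkh_prod]
    refine Finset.prod_congr rfl fun b _ => ?_
    rw [mkh_zpow, hv]
  choose c' hc' using fun e => mkh_surj (c e)
  -- the relation
  have hrel : ∀ᶠ s in hy, ∑ e ∈ S, c' e s • U e s ^ m s = 0 := by
    rw [← mkh_zero, mkh_sum, ← hsum]
    refine Finset.sum_congr rfl fun e _ => ?_
    rw [← hc' e, algUp_mkh, hmon, ← map_mul]
    congr 1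
  -- no proportional pair
  have hpair : ∀ᶠ s in hy, ∀ e ∈ S, ∀ e' ∈ S, e ≠ e' → ∀ a : ℂ, U e s ≠ algebraMap ℂ MK a * U e' s := by
    rw [Filter.eventually_all_finset]
    intro e he
    rw [Filter.eventually_all_finset]
    intro e' he'
    by_cases hee : e = e'
    · exact Eventually.of_forall fun s h => absurd hee h
    · by_contra hcon
      have h1 : ∀ᶠ s in hy, ∃ a : ℂ, U e s = algebraMap ℂ MK a * U e' s := by
        have h2 := Ultrafilter.eventually_not.2 hcon
        filter_upwards [h2] with s hs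
        push Not at hs
        exact hs.2
      have h3 : ∀ s, ∃ a : ℂ, (∃ a : ℂ, U e s = algebraMap ℂ MK a * U e' s) →
          U e s = algebraMap ℂ MK a * U e' s := by
        intro s
        by_cases h : ∃ a : ℂ, U e s = algebraMap ℂ MK a * U e' s
        · obtain ⟨a, ha⟩ := h
          exact ⟨a, fun _ => ha⟩
        · exact ⟨0, fun h' => absurd h' h⟩
      choose a ha using h3
      refine hne e he e' he' hee (mkh ℂ (fun s => a s ^ m s)) ?_
      rw [hmon, hmon, algUp_mkh, ← map_mul, mkh_eq]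
      filter_upwards [h1] with s hs
      show U e s ^ m s = algebraMap ℂ MK (a s ^ m s) * U e' s ^ m s
      rw [ha s hs, mul_pow, map_pow]
  have hbig : ∀ᶠ s in hy, Pool.Agent.Y221.AB.NB 1 S.card ≤ m s := by
    have h1 : ∀ᶠ s in (cofinite : Filter ℕ), Pool.Agent.Y221.AB.NB 1 S.card ≤ s := by
      rw [Nat.cofinite_eq_atTop]
      exact eventually_ge_atTop _
    have h2 : ∀ᶠ s in hy, Pool.Agent.Y221.AB.NB 1 S.card ≤ s := hyperfilter_le_cofinite h1
    filter_upwards [h2] with s hs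
    exact hs.trans (hm s)
  have hall : ∀ᶠ s in hy, ∀ e ∈ S, c' e s = 0 := by
    filter_upwards [hrel, hpair, hbig] with s h1 h2 h3
    have h4 := Pool.Agent.Y221.AB.bor_li (E := MK) (ι := {e // e ∈ S}) (r := 1) (s := S.card)
      (N := m s) (by rw [Module.finrank_self]) h3 (u := fun e => U e.1 s) (fun e => hU0 e.1 s)
      (fun i j hij a => h2 i.1 i.2 j.1 j.2 (fun h => hij (Subtype.ext h)) a)
      Finset.univ (by simp) (fun e => c' e.1 s) (by
        rw [← h1, ← Finset.sum_coe_sort S])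
    intro e he
    exact h4 ⟨e, he⟩ (Finset.mem_univ _)
  rw [← hc' e, mkh_zero]
  filter_upwards [hall] with s hs
  exact hs e he

end Pool.Agent.NH2.CN
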