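import Pool.Agent.NH29.GN.Stm

/-!
# Ultrapowers: classes of sequences, algebraic closedness
-/

set_option autoImplicit false

namespace Pool.Agent.NH2.CN

open MvPolynomial Filter Pool.Agent.NH29.GN

/-- the ultrafilter -/
noncomputable abbrev hy : Filter ℕ := ((hyperfilter ℕ : Ultrafilter ℕ) : Filter ℕ)

/-- the class of a sequence, as a ring homomorphism -/
noncomputable def mkh (K : Type) [Field K] : (ℕ → K) →+* UP K :=
  Filter.Germ.coeRingHom hy

lemma mkh_surj {K : Type} [Field K] (x : UP K) : ∃ f, mkh K f = x := by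
  obtain ⟨f, hf⟩ := Quotient.exists_rep x
  exact ⟨f, hf⟩

lemma mkh_eq {K : Type} [Field K] {f g : ℕ → K} :
    mkh K f = mkh K g ↔ ∀ᶠ s in hy, f s = g s := Filter.Germ.coe_eq

lemma mkh_zero {K : Type} [Field K] {f : ℕ → K} : mkh K f = 0 ↔ ∀ᶠ s in hy, f s = 0 := by
  rw [← map_zero (mkh K), mkh_eq]
  rfl

lemma mkh_const {K : Type} [Field K] (a : K) : mkh K (fun _ => a) = algebraMap K (UP K) a := rfl

lemma mkh_ne_zero {K : Type} [Field K] {f : ℕ → K} : mkh K f ≠ 0 ↔ ∀ᶠ s in hy, f s ≠ 0 := by
  rw [Ne, mkh_zero]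
  exact Ultrafilter.eventually_not.symm

lemma mkh_inv {K : Type} [Field K] (f : ℕ → K) : mkh K (fun s => (f s)⁻¹) = (mkh K f)⁻¹ := by
  by_cases h : mkh K f = 0
  · rw [h, inv_zero]
    rw [mkh_zero] at h ⊢
    filter_upwards [h] with s hs
    rw [hs, inv_zero]
  · symm
    apply inv_eq_of_mul_eq_one_right
    rw [← map_mul, ← map_one (mkh K), mkh_eq]
    filter_upwards [mkh_ne_zero.1 h] with s hs
    exact mul_inv_cancel₀ hs

lemma mkh_div {K : Type} [Field K] (f g : ℕ → K) :
    mkh K (fun s => f s / g s) = mkh K f / mkh K g := by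
  rw [div_eq_mul_inv, ← mkh_inv, ← map_mul]
  congr 1
  funext s
  exact div_eq_mul_inv _ _

lemma mkh_zpow {K : Type} [Field K] (f : ℕ → K) (n : ℤ) :
    mkh K (fun s => f s ^ n) = mkh K f ^ n := by
  cases n with
  | ofNat n =>
    simp only [Int.ofNat_eq_natCast, zpow_natCast]
    rw [← map_pow]
    rfl
  | negSucc n =>
    simp only [zpow_negSucc]
    rw [mkh_inv, ← map_pow]
    rfl

lemma mkh_prod {K : Type} [Field K] {ι : Type*} (S : Finset ι) (f : ι → ℕ → K) :
    mkh K (fun s => ∏ i ∈ S, f i s) = ∏ i ∈ S, mkh K (f i) := by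
  rw [← map_prod]
  congr 1
  funext s
  rw [Finset.prod_apply]

lemma mkh_sum {K : Type} [Field K] {ι : Type*} (S : Finset ι) (f : ι → ℕ → K) :
    mkh K (fun s => ∑ i ∈ S, f i s) = ∑ i ∈ S, mkh K (f i) := by
  rw [← map_sum]
  congr 1
  funext s
  rw [Finset.sum_apply]

/-- an ultrapower of an algebraically closed field is algebraically closed -/
theorem algClosed (K : Type) [Field K] [IsAlgClosed K] : IsAlgClosed (UP K) := by
  apply IsAlgClosed.of_exists_root
  intro p hp hirr
  have hd : 0 < p.natDegree := hirr.natDegree_pos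
  obtain ⟨n, hn⟩ : ∃ n, n = p.natDegree := ⟨_, rfl⟩
  choose a ha using fun i : ℕ => mkh_surj (p.coeff i)
  have h1 : ∀ s, ∃ x : K, x ^ n + ∑ i ∈ Finset.range n, a i s * x ^ i = 0 := by
    intro s
    obtain ⟨P, hP⟩ : ∃ P : Polynomial K, P = Polynomial.X ^ n +
      ∑ i ∈ Finset.range n, Polynomial.C (a i s) * Polynomial.X ^ i := ⟨_, rfl⟩
    have hlt : (∑ i ∈ Finset.range n, Polynomial.C (a i s) * Polynomial.X ^ i).degree <
        (n : WithBot ℕ) := by
      refine (Polynomial.degree_sum_le _ _).trans_lt ?_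
      refine (Finset.sup_lt_iff (WithBot.bot_lt_coe n)).2 fun i hi => ?_
      refine (Polynomial.degree_C_mul_X_pow_le _ _).trans_lt ?_
      exact WithBot.coe_lt_coe.2 (Finset.mem_range.1 hi)
    have hdeg : P.degree = n := by
      rw [hP, add_comm, Polynomial.degree_add_eq_right_of_degree_lt, Polynomial.degree_X_pow]
      rwa [Polynomial.degree_X_pow]
    obtain ⟨x, hx⟩ := IsAlgClosed.exists_root P (by
      rw [hdeg]
      have : n ≠ 0 := by omega
      exact_mod_cast this)
    refine ⟨x, ?_⟩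
    have h2 : P.eval x = 0 := hx
    rw [hP] at h2
    simpa [Polynomial.eval_finsetSum] using h2
  choose x hx using h1
  refine ⟨mkh K x, ?_⟩
  have e1 : p = Polynomial.X ^ n + ∑ i ∈ Finset.range n,
      Polynomial.C (p.coeff i) * Polynomial.X ^ i := by
    conv_lhs => rw [hp.as_sum, ← hn]
  rw [e1]
  simp only [Polynomial.eval_add, Polynomial.eval_pow, Polynomial.eval_X,
    Polynomial.eval_finsetSum, Polynomial.eval_mul, Polynomial.eval_C, ← ha, ← map_pow,
    ← map_mul, ← map_sum, ← map_add]
  rw [mkh_zero]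
  refine Eventually.of_forall fun s => ?_
  have := hx s
  simpa [Finset.sum_apply] using this

/-- the embedding of ultrapowers -/
noncomputable def upMap (K L : Type) [Field K] [Field L] [Algebra K L] : UP K →+* UP L where
  toFun := fun x => Filter.Germ.map (algebraMap K L) x
  map_one' := by
    have : (1 : UP K) = mkh K (fun _ => 1) := (map_one (mkh K)).symm
    rw [this]
    show mkh L (fun _ => algebraMap K L 1) = 1
    rw [map_one]
    exact map_one (mkh L)
  map_mul' := by
    intro x y
    obtain ⟨f, rfl⟩ := mkh_surj x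
    obtain ⟨g, rfl⟩ := mkh_surj y
    rw [← map_mul]
    show mkh L (fun s => algebraMap K L (f s * g s)) =
      mkh L (fun s => algebraMap K L (f s)) * mkh L (fun s => algebraMap K L (g s))
    rw [← map_mul]
    congr 1
    funext s
    exact map_mul _ _ _
  map_zero' := by
    have : (0 : UP K) = mkh K (fun _ => 0) := (map_zero (mkh K)).symm
    rw [this]
    show mkh L (fun _ => algebraMap K L 0) = 0
    rw [map_zero]
    exact map_zero (mkh L)
  map_add' := by
    intro x y
    obtain ⟨f, rfl⟩ := mkh_surj x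
    obtain ⟨g, rfl⟩ := mkh_surj y
    rw [← map_add]
    show mkh L (fun s => algebraMap K L (f s + g s)) =
      mkh L (fun s => algebraMap K L (f s)) + mkh L (fun s => algebraMap K L (g s))
    rw [← map_add]
    congr 1
    funext s
    exact map_add _ _ _

lemma upMap_mkh {K L : Type} [Field K] [Field L] [Algebra K L] (f : ℕ → K) :
    upMap K L (mkh K f) = mkh L (fun s => algebraMap K L (f s)) := rfl

end Pool.Agent.NH2.CN
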